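import Mathlib

/-!
# Counting weakly increasing sequences with prescribed strict steps and prescribed last entry
-/

set_option autoImplicit false
open Classical

namespace Pool.Agent.Helper14.J1

/-- sequences `g_0 ≤ ... ≤ g_N = m`, strict at the steps `j` with `st j` -/
def IsG (N : ℕ) (st : Fin N → Prop) (m : ℕ) (g : Fin (N + 1) → ℕ) : Prop :=
  (∀ j : Fin N, g j.castSucc ≤ g j.succ ∧ (st j → g j.castSucc < g j.succ)) ∧ g (Fin.last N) = m

theorem IsG.mono {N : ℕ} {st : Fin N → Prop} {m : ℕ} {g : Fin (N + 1) → ℕ} (h : IsG N st m g) :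
    Monotone g := Fin.monotone_iff_le_succ.2 (fun j => (h.1 j).1)

theorem IsG.le {N : ℕ} {st : Fin N → Prop} {m : ℕ} {g : Fin (N + 1) → ℕ} (h : IsG N st m g)
    (i : Fin (N + 1)) : g i ≤ m := by
  rw [← h.2]
  exact h.mono (Fin.le_last i)

/-- the set of these sequences -/
noncomputable def GG (N : ℕ) (st : Fin N → Prop) (m : ℕ) : Finset (Fin (N + 1) → ℕ) :=
  (Fintype.piFinset (fun _ => Finset.range (m + 1))).filter (IsG N st m)

theorem mem_GG {N : ℕ} {st : Fin N → Prop} {m : ℕ} {g : Fin (N + 1) → ℕ} :
    g ∈ GG N st m ↔ IsG N st m g := by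
  unfold GG
  rw [Finset.mem_filter, Fintype.mem_piFinset]
  refine ⟨fun h => h.2, fun h => ⟨fun i => Finset.mem_range.2 ?_, h⟩⟩
  have := h.le i
  omega

theorem isG_succ {N : ℕ} {st : Fin (N + 1) → Prop} {m : ℕ} {g : Fin (N + 2) → ℕ} :
    IsG (N + 1) st m g ↔ IsG N (fun j => st j.castSucc) (g (Fin.last N).castSucc) (Fin.init g) ∧
      g (Fin.last (N + 1)) = m ∧ g (Fin.last N).castSucc ≤ m ∧
        (st (Fin.last N) → g (Fin.last N).castSucc < m) := by
  unfold IsG
  constructor
  · rintro ⟨h1, h2⟩
    refine ⟨⟨fun j => ?_, rfl⟩, h2, ?_, ?_⟩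
    · have := h1 j.castSucc
      unfold Fin.init
      rw [← Fin.succ_castSucc]
      exact this
    · have := (h1 (Fin.last N)).1
      rw [Fin.succ_last, h2] at this
      exact this
    · intro hs
      have := (h1 (Fin.last N)).2 hs
      rw [Fin.succ_last, h2] at this
      exact this
  · rintro ⟨⟨h1, _⟩, h2, h3, h4⟩
    refine ⟨fun j => ?_, h2⟩
    refine Fin.lastCases ?_ (fun j => ?_) j
    · rw [Fin.succ_last, h2]
      exact ⟨h3, h4⟩
    · have := h1 j
      unfold Fin.init at this
      rw [← Fin.succ_castSucc] at this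
      exact this

theorem card_fiber {N : ℕ} (st : Fin (N + 1) → Prop) (m m' : ℕ) (hm : m' ≤ m) :
    ((GG (N + 1) st m).filter (fun g => g (Fin.last N).castSucc = m')).card =
      if (st (Fin.last N) → m' < m) then (GG N (fun j => st j.castSucc) m').card else 0 := by
  split_ifs with h
  · refine Finset.card_bij' (fun g _ => Fin.init g) (fun g _ => (Fin.snoc g m : Fin (N + 2) → ℕ)) ?_ ?_ ?_ ?_
    · intro g hg
      rw [Finset.mem_filter, mem_GG, isG_succ] at hg
      rw [mem_GG]
      obtain ⟨⟨h1, _⟩, h2⟩ := hg
      rw [h2] at h1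
      exact h1
    · intro g hg
      rw [mem_GG] at hg
      rw [Finset.mem_filter, mem_GG, isG_succ]
      have e1 : (Fin.snoc g m : Fin (N + 2) → ℕ) (Fin.last N).castSucc = m' := by
        rw [Fin.snoc_castSucc]; exact hg.2
      rw [e1]
      refine ⟨⟨?_, ?_, hm, h⟩, rfl⟩
      · rw [Fin.init_snoc]; exact hg
      · rw [Fin.snoc_last]
    · intro g hg
      rw [Finset.mem_filter, mem_GG, isG_succ] at hg
      have h3 : m = g (Fin.last (N + 1)) := hg.1.2.1.symm
      rw [h3]
      exact Fin.snoc_init_self g
    · intro g _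
      exact Fin.init_snoc _ _
  · rw [Finset.card_eq_zero, Finset.filter_eq_empty_iff]
    intro g hg h2
    rw [mem_GG, isG_succ] at hg
    apply h
    intro hs
    have := hg.2.2.2 hs
    rw [h2] at this
    exact this

theorem sum_choose (N a : ℕ) (ha : a ≤ N) (m : ℕ) :
    ∑ i ∈ Finset.range (m + 1), (i + a).choose N = (m + a + 1).choose (N + 1) := by
  induction m with
  | zero =>
    rw [Finset.sum_range_one, Nat.zero_add]
    rcases ha.eq_or_lt with rfl | h
    · rw [Nat.choose_self, Nat.choose_self]
    · rw [Nat.choose_eq_zero_of_lt h, Nat.choose_eq_zero_of_lt (by omega)]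
  | succ m ih =>
    rw [Finset.sum_range_succ, ih, show m + 1 + a + 1 = (m + a + 1) + 1 by omega,
      Nat.choose_succ_succ' (m + a + 1) N, show m + 1 + a = m + a + 1 by omega]
    exact Nat.add_comm _ _

theorem card_st_succ {N : ℕ} (st : Fin (N + 1) → Prop) :
    (Finset.univ.filter st).card =
      (Finset.univ.filter (fun j : Fin N => st j.castSucc)).card + if st (Fin.last N) then 1 else 0 := by
  rw [Finset.card_filter, Finset.card_filter, Fin.sum_univ_castSucc]

theorem card_GG (N : ℕ) : ∀ (st : Fin N → Prop) (m : ℕ),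
    (GG N st m).card = (m + N - (Finset.univ.filter st).card).choose N := by
  induction N with
  | zero =>
    intro st m
    rw [Nat.choose_zero_right, Finset.card_eq_one]
    refine ⟨fun _ => m, ?_⟩
    ext g
    rw [mem_GG, Finset.mem_singleton]
    constructor
    · intro h
      funext i
      rw [← h.2]
      congr 1
      apply Fin.ext
      have h1 := i.2
      have h2 := (Fin.last 0).2
      omega
    · rintro rfl
      exact ⟨fun j => j.elim0, rfl⟩
  | succ N ih =>
    intro st m
    have h1 : (GG (N + 1) st m).card = ∑ m' ∈ Finset.range (m + 1),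
        ((GG (N + 1) st m).filter (fun g => g (Fin.last N).castSucc = m')).card := by
      refine Finset.card_eq_sum_card_fiberwise (fun g hg => ?_)
      have hg' := mem_GG.1 (Finset.mem_coe.1 hg)
      rw [Finset.coe_range, Set.mem_Iio]
      have := hg'.le (Fin.last N).castSucc
      omega
    have h2 : ∀ m' ∈ Finset.range (m + 1),
        ((GG (N + 1) st m).filter (fun g => g (Fin.last N).castSucc = m')).card =
          if (st (Fin.last N) → m' < m) then (m' + (N -
            (Finset.univ.filter (fun j : Fin N => st j.castSucc)).card)).choose N else 0 := by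
      intro m' hm'
      rw [card_fiber st m m' (by have := Finset.mem_range.1 hm'; omega), ih]
      have hc : (Finset.univ.filter (fun j : Fin N => st j.castSucc)).card ≤ N := by
        refine (Finset.card_filter_le _ _).trans ?_
        rw [Finset.card_univ, Fintype.card_fin]
      rw [Nat.add_sub_assoc hc]
    rw [h1, Finset.sum_congr rfl h2, card_st_succ]
    have hc : (Finset.univ.filter (fun j : Fin N => st j.castSucc)).card ≤ N := by
      refine (Finset.card_filter_le _ _).trans ?_
      rw [Finset.card_univ, Fintype.card_fin]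
    generalize (Finset.univ.filter (fun j : Fin N => st j.castSucc)).card = d at hc ⊢
    by_cases hs : st (Fin.last N)
    · rw [if_pos hs]
      rw [Finset.sum_range_succ, if_neg (by intro h; exact absurd (h hs) (lt_irrefl m)), Nat.add_zero]
      have h3 : ∀ m' ∈ Finset.range m, (if (st (Fin.last N) → m' < m) then (m' + (N - d)).choose N
          else 0) = (m' + (N - d)).choose N := fun m' hm' => if_pos (fun _ => Finset.mem_range.1 hm')
      rw [Finset.sum_congr rfl h3]
      rcases Nat.eq_zero_or_pos m with rfl | hm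
      · rw [Finset.sum_range_zero, Nat.choose_eq_zero_of_lt (by omega)]
      · obtain ⟨k, rfl⟩ := Nat.exists_eq_add_of_lt hm
        rw [Nat.zero_add, sum_choose N (N - d) (Nat.sub_le _ _) k]
        congr 1
        omega
    · rw [if_neg hs]
      have h3 : ∀ m' ∈ Finset.range (m + 1), (if (st (Fin.last N) → m' < m) then
          (m' + (N - d)).choose N else 0) = (m' + (N - d)).choose N :=
        fun m' _ => if_pos (fun h => absurd h hs)
      rw [Finset.sum_congr rfl h3, sum_choose N (N - d) (Nat.sub_le _ _) m]
      congr 1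
      omega

end Pool.Agent.Helper14.J1
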