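import Mathlib

/-!
# Components of the region where one map exceeds another, and swaps

`Adm f`: the map `f : V → ℤ` satisfies the difference constraints `f x + δ x y ≤ f y`, `E x y`.
For two admissible maps `u, v` and an integer `c` the region `{v + c < u}` is a union of components; swapping `u` and `v`
(up to the shift `c`) on a union of components gives admissible maps again.
-/

set_option autoImplicit false
open Classical

namespace Pool.Agent.Helper14.J1

variable {V : Type*} (E : V → V → Prop) (δ : V → V → ℤ)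

/-- difference constraints -/
def Adm (f : V → ℤ) : Prop := ∀ x y, E x y → f x + δ x y ≤ f y

/-- the region where `u` exceeds `v + c` -/
def Rg (u v : V → ℤ) (c : ℤ) (x : V) : Prop := v x + c < u x

/-- adjacency: the constraint between `x` and `y` is violated if only one of `x`, `y` is swapped -/
def adj (u v : V → ℤ) (c : ℤ) (x y : V) : Prop :=
  (E x y ∧ v y + c < u x + δ x y) ∨ (E y x ∧ v x + c < u y + δ y x)

/-- a step inside the region -/
def step (u v : V → ℤ) (c : ℤ) (x y : V) : Prop := Rg u v c y ∧ adj E δ u v c x y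

/-- union of the components which meet `S` -/
def Cl (u v : V → ℤ) (c : ℤ) (S : V → Prop) (x : V) : Prop :=
  ∃ z, S z ∧ Rg u v c z ∧ Relation.ReflTransGen (step E δ u v c) z x

/-- unions of components -/
def Closed (u v : V → ℤ) (c : ℤ) (C : V → Prop) : Prop :=
  (∀ x, C x → Rg u v c x) ∧ ∀ x y, C x → Rg u v c y → adj E δ u v c x y → C y

/-- first component of the swap -/
noncomputable def swU (C : V → Prop) (c : ℤ) (u v : V → ℤ) (x : V) : ℤ := if C x then v x + c else u x

/-- second component of the swap -/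
noncomputable def swV (C : V → Prop) (c : ℤ) (u v : V → ℤ) (x : V) : ℤ := if C x then u x - c else v x

variable {E δ}

theorem adj_symm {u v : V → ℤ} {c : ℤ} {x y : V} (h : adj E δ u v c x y) : adj E δ u v c y x := by
  rcases h with h | h
  · exact Or.inr h
  · exact Or.inl h

theorem Cl.rg {u v : V → ℤ} {c : ℤ} {S : V → Prop} {x : V} (h : Cl E δ u v c S x) : Rg u v c x := by
  obtain ⟨z, _, hz, h⟩ := h
  induction h with
  | refl => exact hz
  | tail _ h _ => exact h.1

theorem Cl.base {u v : V → ℤ} {c : ℤ} {S : V → Prop} {x : V} (h : S x) (hx : Rg u v c x) :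
    Cl E δ u v c S x := ⟨x, h, hx, Relation.ReflTransGen.refl⟩

theorem Cl.next {u v : V → ℤ} {c : ℤ} {S : V → Prop} {x y : V} (h : Cl E δ u v c S x)
    (hy : Rg u v c y) (ha : adj E δ u v c x y) : Cl E δ u v c S y := by
  obtain ⟨z, h1, h2, h3⟩ := h
  exact ⟨z, h1, h2, h3.tail ⟨hy, ha⟩⟩

theorem Cl.closed {u v : V → ℤ} {c : ℤ} {S : V → Prop} : Closed E δ u v c (Cl E δ u v c S) :=
  ⟨fun _ h => h.rg, fun _ _ h hy ha => h.next hy ha⟩

/-- induction principle -/
theorem Cl.induct {u v : V → ℤ} {c : ℤ} {S : V → Prop} {Q : V → Prop}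
    (h0 : ∀ x, S x → Rg u v c x → Q x)
    (h1 : ∀ x y, Cl E δ u v c S x → Q x → Rg u v c y → adj E δ u v c x y → Q y)
    {x : V} (h : Cl E δ u v c S x) : Q x := by
  obtain ⟨z, hs, hz, h⟩ := h
  have : Cl E δ u v c S x ∧ Q x := by
    induction h with
    | refl => exact ⟨Cl.base hs hz, h0 z hs hz⟩
    | tail _ h ih => exact ⟨ih.1.next h.1 h.2, h1 _ _ ih.1 ih.2 h.1 h.2⟩
  exact this.2

theorem Cl.sub {u v : V → ℤ} {c : ℤ} {S C : V → Prop} (hC : Closed E δ u v c C) (hS : ∀ x, S x → C x)
    {x : V} (h : Cl E δ u v c S x) : C x :=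
  h.induct (fun x hx _ => hS x hx) (fun x y _ hx hy ha => hC.2 x y hx hy ha)

/-- components meeting a set outside of `C` stay outside of `C` -/
theorem Cl.out {u v : V → ℤ} {c : ℤ} {S C : V → Prop} (hC : Closed E δ u v c C)
    (hS : ∀ x, S x → ¬ C x) {x : V} (h : Cl E δ u v c S x) : ¬ C x :=
  h.induct (fun x hx _ => hS x hx) (fun _ _ hx hq _ ha hCy => hq (hC.2 _ _ hCy hx.rg (adj_symm ha)))

theorem Cl.congr {u v : V → ℤ} {c : ℤ} {S S' : V → Prop} (h : ∀ x, Rg u v c x → (S x ↔ S' x)) {x : V} :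
    Cl E δ u v c S x ↔ Cl E δ u v c S' x := by
  constructor
  · rintro ⟨z, h1, h2, h3⟩
    exact ⟨z, (h z h2).1 h1, h2, h3⟩
  · rintro ⟨z, h1, h2, h3⟩
    exact ⟨z, (h z h2).2 h1, h2, h3⟩

theorem adm_swU {u v : V → ℤ} {c : ℤ} {C : V → Prop} (hu : Adm E δ u) (hv : Adm E δ v)
    (hC : Closed E δ u v c C) : Adm E δ (swU C c u v) := by
  intro x y hxy
  have h1 := hu x y hxy
  have h2 := hv x y hxy
  unfold swU
  by_cases hx : C x
  · have h3 : v x + c < u x := hC.1 x hx
    by_cases hy : C y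
    · rw [if_pos hx, if_pos hy]; omega
    · rw [if_pos hx, if_neg hy]; omega
  · by_cases hy : C y
    · rw [if_neg hx, if_pos hy]
      by_contra hcon
      by_cases hr : Rg u v c x
      · exact hx (hC.2 y x hy hr (Or.inr ⟨hxy, by omega⟩))
      · unfold Rg at hr; omega
    · rw [if_neg hx, if_neg hy]; exact h1

theorem adm_swV {u v : V → ℤ} {c : ℤ} {C : V → Prop} (hu : Adm E δ u) (hv : Adm E δ v)
    (hC : Closed E δ u v c C) : Adm E δ (swV C c u v) := by
  intro x y hxy
  have h1 := hu x y hxy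
  have h2 := hv x y hxy
  unfold swV
  by_cases hx : C x
  · by_cases hy : C y
    · rw [if_pos hx, if_pos hy]; omega
    · rw [if_pos hx, if_neg hy]
      by_contra hcon
      by_cases hr : Rg u v c y
      · exact hy (hC.2 x y hx hr (Or.inl ⟨hxy, by omega⟩))
      · unfold Rg at hr; omega
  · by_cases hy : C y
    · have h3 : v y + c < u y := hC.1 y hy
      rw [if_neg hx, if_pos hy]; omega
    · rw [if_neg hx, if_neg hy]; exact h2

/-- swapping twice -/
theorem sw_swU (C : V → Prop) (c : ℤ) (u v : V → ℤ) : swU C c (swU C c u v) (swV C c u v) = u := by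
  funext x
  by_cases hx : C x
  · simp only [swU, swV, if_pos hx]; ring
  · simp only [swU, if_neg hx]

theorem sw_swV (C : V → Prop) (c : ℤ) (u v : V → ℤ) : swV C c (swU C c u v) (swV C c u v) = v := by
  funext x
  by_cases hx : C x
  · simp only [swU, swV, if_pos hx]; ring
  · simp only [swV, if_neg hx]

/-- the swapped components are components of the reversed region -/
theorem rg_swap_in {u v : V → ℤ} {c : ℤ} {C : V → Prop} {x : V} (hx : C x) :
    Rg (swV C c u v) (swU C c u v) (-c) x ↔ Rg u v c x := by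
  unfold Rg swU swV
  rw [if_pos hx, if_pos hx]
  omega

theorem adj_swap_in {u v : V → ℤ} {c : ℤ} {C : V → Prop} {x y : V} (hu : Adm E δ u) (hv : Adm E δ v)
    (hx : C x) : adj E δ (swV C c u v) (swU C c u v) (-c) x y ↔ C y ∧ adj E δ u v c x y := by
  unfold adj swU swV
  by_cases hy : C y
  · rw [if_pos hx, if_pos hy, if_pos hx, if_pos hy]
    constructor
    · rintro (⟨h1, h2⟩ | ⟨h1, h2⟩)
      · exact ⟨hy, Or.inl ⟨h1, by omega⟩⟩
      · exact ⟨hy, Or.inr ⟨h1, by omega⟩⟩
    · rintro ⟨_, ⟨h1, h2⟩ | ⟨h1, h2⟩⟩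
      · exact Or.inl ⟨h1, by omega⟩
      · exact Or.inr ⟨h1, by omega⟩
  · rw [if_pos hx, if_neg hy, if_pos hx, if_neg hy]
    constructor
    · rintro (⟨h1, h2⟩ | ⟨h1, h2⟩)
      · have := hu x y h1; omega
      · have := hv y x h1; omega
    · rintro ⟨h, _⟩
      exact absurd h hy

/-- (CL) closures inside of the swapped set are the same -/
theorem cl_swap_in {u v : V → ℤ} {c : ℤ} {C S : V → Prop} (hu : Adm E δ u) (hv : Adm E δ v)
    (hC : Closed E δ u v c C) (hS : ∀ x, S x → C x) {x : V} :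
    Cl E δ (swV C c u v) (swU C c u v) (-c) S x ↔ Cl E δ u v c S x := by
  constructor
  · intro h
    have : C x ∧ Cl E δ u v c S x := by
      refine Cl.induct (Q := fun x => C x ∧ Cl E δ u v c S x) ?_ ?_ h
      · intro z hz hr
        exact ⟨hS z hz, Cl.base hz ((rg_swap_in (hS z hz)).1 hr)⟩
      · intro z y _ hz hr ha
        have h2 := (adj_swap_in hu hv hz.1).1 ha
        exact ⟨h2.1, hz.2.next ((rg_swap_in h2.1).1 hr) h2.2⟩
    exact this.2
  · intro h
    have : C x ∧ Cl E δ (swV C c u v) (swU C c u v) (-c) S x := by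
      refine Cl.induct (Q := fun x => C x ∧ Cl E δ (swV C c u v) (swU C c u v) (-c) S x) ?_ ?_ h
      · intro z hz hr
        exact ⟨hS z hz, Cl.base hz ((rg_swap_in (hS z hz)).2 hr)⟩
      · intro z y _ hz hr ha
        have hy := hC.2 z y hz.1 hr ha
        exact ⟨hy, hz.2.next ((rg_swap_in hy).2 hr) ((adj_swap_in hu hv hz.1).2 ⟨hy, ha⟩)⟩
    exact this.2

theorem rg_swap_out {u v : V → ℤ} {c : ℤ} {C : V → Prop} (hC : ∀ x, C x → Rg u v c x) {x : V} :
    Rg (swU C c u v) (swV C c u v) c x ↔ ¬ C x ∧ Rg u v c x := by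
  unfold Rg swU swV
  by_cases hx : C x
  · rw [if_pos hx, if_pos hx]
    have := hC x hx
    unfold Rg at this
    constructor
    · intro h; omega
    · intro h; exact absurd hx h.1
  · rw [if_neg hx, if_neg hx]
    exact ⟨fun h => ⟨hx, h⟩, fun h => h.2⟩

/-- (OFF) closures outside of the swapped set are the same -/
theorem cl_swap_out {u v : V → ℤ} {c : ℤ} {C S : V → Prop}
    (hC : Closed E δ u v c C) (hS : ∀ x, S x → ¬ C x) {x : V} :
    Cl E δ (swU C c u v) (swV C c u v) c S x ↔ Cl E δ u v c S x := by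
  have key : ∀ x y, ¬ C x → ¬ C y →
      (adj E δ (swU C c u v) (swV C c u v) c x y ↔ adj E δ u v c x y) := by
    intro x y hx hy
    unfold adj swU swV
    rw [if_neg hx, if_neg hy, if_neg hx, if_neg hy]
  constructor
  · intro h
    refine Cl.induct (Q := fun x => Cl E δ u v c S x) ?_ ?_ h
    · intro z hz hr
      exact Cl.base hz ((rg_swap_out hC.1).1 hr).2
    · intro z y h1 hz hr ha
      have h2 := (rg_swap_out hC.1).1 hr
      have h3 := (rg_swap_out hC.1).1 h1.rg
      exact hz.next h2.2 ((key z y h3.1 h2.1).1 ha)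
  · intro h
    refine Cl.induct (Q := fun x => Cl E δ (swU C c u v) (swV C c u v) c S x) ?_ ?_ h
    · intro z hz hr
      exact Cl.base hz ((rg_swap_out hC.1).2 ⟨hS z hz, hr⟩)
    · intro z y h1 hz hr ha
      have h2 := h1.out hC hS
      have h3 := (h1.next hr ha).out hC hS
      exact hz.next ((rg_swap_out hC.1).2 ⟨h3, hr⟩) ((key z y h2 h3).2 ha)

end Pool.Agent.Helper14.J1
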