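import Pool.Agent.Helper14.J1.Comp

/-!
# The injection

`FF r q` is the set of the admissible maps `V → [r, q]` with maximum `q`.  For `r ≤ s`, `p < q` and nonnegative `δ` we define
an injection `FF r q × FF s p → FF r p × FF s q`.
-/

set_option autoImplicit false
open Classical

namespace Pool.Agent.Helper14.J1

variable {V : Type*} (E : V → V → Prop) (δ : V → V → ℤ)

/-- the components of `{a < b}` which contain a point with `b > p` -/
def WW (p : ℤ) (a b : V → ℤ) : V → Prop := Cl E δ b a 0 (fun x => p < b x)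

/-- the pairs obtained by swapping the components of `{f > g}` with a point `f > p` -/
def TT (r s p q : ℤ) (a b : V → ℤ) : Prop :=
  Adm E δ a ∧ Adm E δ b ∧ (∀ x, r ≤ a x ∧ a x ≤ p) ∧ (∀ x, s ≤ b x ∧ b x ≤ q) ∧ (∃ x, b x = q) ∧
    (∀ x, WW E δ p a b x → s ≤ a x) ∧
    ((∃ x, WW E δ p a b x ∧ a x = p) ∨ ∃ x, ¬ WW E δ p a b x ∧ b x = p)

/-- first step -/
noncomputable def Phi1 (p : ℤ) (f g : V → ℤ) : (V → ℤ) × (V → ℤ) :=
  (swU (Cl E δ f g 0 (fun x => p < f x)) 0 f g, swV (Cl E δ f g 0 (fun x => p < f x)) 0 f g)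

/-- inverse of the first step -/
noncomputable def Psi1 (p : ℤ) (a b : V → ℤ) : (V → ℤ) × (V → ℤ) :=
  (swU (WW E δ p a b) 0 a b, swV (WW E δ p a b) 0 a b)

/-- low points -/
def LL (p : ℤ) (a b : V → ℤ) (x : V) : Prop := ¬ WW E δ p a b x ∧ b x = p

/-- components of `{a < b}` with a low point -/
def C1 (p : ℤ) (a b : V → ℤ) : V → Prop := Cl E δ b a 0 (LL E δ p a b)

/-- components of `{a + c < b}` with a maximum of `b` -/
def AA (q c : ℤ) (a b : V → ℤ) : V → Prop := Cl E δ b a c (fun x => b x = q)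

/-- raise the low points -/
noncomputable def raise (q : ℤ) (L : V → Prop) (b : V → ℤ) (x : V) : ℤ := if L x then q else b x

/-- lower them again -/
noncomputable def lower (p q : ℤ) (b : V → ℤ) (x : V) : ℤ := if b x = q then p else b x

/-- second step -/
noncomputable def Phi2 (s p q : ℤ) (a b : V → ℤ) : (V → ℤ) × (V → ℤ) :=
  if ∃ x, a x = p then (a, b)
  else if ∀ x, C1 E δ p a b x → s ≤ a x then (swV (C1 E δ p a b) 0 b a, swU (C1 E δ p a b) 0 b a)
  else (swV (AA E δ q (q - p) a b) (q - p) b a,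
    raise q (LL E δ p a b) (swU (AA E δ q (q - p) a b) (q - p) b a))

/-- inverse of the second step -/
noncomputable def Psi2 (s p q : ℤ) (α β : V → ℤ) : (V → ℤ) × (V → ℤ) :=
  if ∃ y, WW E δ p α β y ∧ α y < s then
    (swV (Cl E δ α (lower p q β) (-(q - p)) (fun x => α x = p)) (q - p) (lower p q β) α,
      swU (Cl E δ α (lower p q β) (-(q - p)) (fun x => α x = p)) (q - p) (lower p q β) α)
  else if (∃ x, WW E δ p α β x ∧ α x = p) ∨ (∃ x, ¬ WW E δ p α β x ∧ β x = p) then (α, β)
  else (swV (Cl E δ α β 0 (fun x => α x = p)) 0 β α, swU (Cl E δ α β 0 (fun x => α x = p)) 0 β α)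

variable {E δ}

/-- step one: the components are recovered -/
theorem WW_Phi1 {p : ℤ} {f g : V → ℤ} (hf : Adm E δ f) (hg : Adm E δ g) (hgp : ∀ x, g x ≤ p) :
    WW E δ p (Phi1 E δ p f g).1 (Phi1 E δ p f g).2 = Cl E δ f g 0 (fun x => p < f x) := by
  have hsub : ∀ x, p < f x → Cl E δ f g 0 (fun x => p < f x) x := fun x hx =>
    Cl.base hx (by unfold Rg; have := hgp x; omega)
  have hS : (fun x => p < (Phi1 E δ p f g).2 x) = (fun x => p < f x) := by
    funext x
    apply propext
    unfold Phi1 swV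
    by_cases hx : Cl E δ f g 0 (fun x => p < f x) x
    · simp only [if_pos hx, sub_zero]
    · simp only [if_neg hx]
      have h1 := hgp x
      constructor
      · intro h; omega
      · intro h; exact absurd (hsub x h) hx
  funext x
  apply propext
  unfold WW
  rw [hS]
  have := cl_swap_in (S := fun x => p < f x) (x := x) hf hg (Cl.closed (E := E) (δ := δ) (u := f) (v := g) (c := 0)
    (S := fun x => p < f x)) hsub
  rw [neg_zero] at this
  exact this

theorem Psi1_Phi1 {p : ℤ} {f g : V → ℤ} (hf : Adm E δ f) (hg : Adm E δ g) (hgp : ∀ x, g x ≤ p) :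
    Psi1 E δ p (Phi1 E δ p f g).1 (Phi1 E δ p f g).2 = (f, g) := by
  unfold Psi1
  rw [WW_Phi1 hf hg hgp]
  unfold Phi1
  rw [sw_swU, sw_swV]

theorem TT_Phi1 {r s p q : ℤ} (hrs : r ≤ s) (hpq : p < q) {f g : V → ℤ} (hf : Adm E δ f) (hg : Adm E δ g)
    (hf1 : ∀ x, r ≤ f x ∧ f x ≤ q) (hf2 : ∃ x, f x = q) (hg1 : ∀ x, s ≤ g x ∧ g x ≤ p)
    (hg2 : ∃ x, g x = p) : TT E δ r s p q (Phi1 E δ p f g).1 (Phi1 E δ p f g).2 := by
  have hsub : ∀ x, p < f x → Cl E δ f g 0 (fun x => p < f x) x := fun x hx =>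
    Cl.base hx (by unfold Rg; have := hg1 x; omega)
  have hW := WW_Phi1 hf hg (fun x => (hg1 x).2)
  unfold TT
  rw [hW]
  refine ⟨adm_swU hf hg Cl.closed, adm_swV hf hg Cl.closed, ?_, ?_, ?_, ?_, ?_⟩
  · intro x
    have h1 := hf1 x
    have h2 := hg1 x
    unfold Phi1 swU
    by_cases hx : Cl E δ f g 0 (fun x => p < f x) x
    · simp only [if_pos hx]; omega
    · simp only [if_neg hx]
      have h3 : ¬ p < f x := fun h => hx (hsub x h)
      omega
  · intro x
    have h1 := hf1 x
    have h2 := hg1 x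
    unfold Phi1 swV
    by_cases hx : Cl E δ f g 0 (fun x => p < f x) x
    · simp only [if_pos hx]
      have h3 := hx.rg
      unfold Rg at h3
      omega
    · simp only [if_neg hx]; omega
  · obtain ⟨x, hx⟩ := hf2
    have h3 := hsub x (by omega)
    refine ⟨x, ?_⟩
    unfold Phi1 swV
    simp only [if_pos h3]; omega
  · intro x hx
    have h2 := hg1 x
    unfold Phi1 swU
    simp only [if_pos hx]; omega
  · obtain ⟨x, hx⟩ := hg2
    by_cases h : Cl E δ f g 0 (fun x => p < f x) x
    · left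
      refine ⟨x, h, ?_⟩
      unfold Phi1 swU
      simp only [if_pos h]; omega
    · right
      refine ⟨x, h, ?_⟩
      unfold Phi1 swV
      simp only [if_neg h]; exact hx

/-! ## The second step -/

section second

variable {r s p q : ℤ} {a b : V → ℤ}

theorem WW_base (h : TT E δ r s p q a b) {x : V} (hx : p < b x) : WW E δ p a b x :=
  Cl.base hx (by unfold Rg; have := h.2.2.1 x; omega)

theorem b_le (h : TT E δ r s p q a b) {x : V} (hx : ¬ WW E δ p a b x) : b x ≤ p := by
  by_contra hc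
  exact hx (WW_base h (by omega))

theorem C1_out {x : V} (hx : C1 E δ p a b x) : ¬ WW E δ p a b x :=
  hx.out (C := WW E δ p a b) Cl.closed (fun _ h => h.1)

theorem C1_base (h : TT E δ r s p q a b) (hno : ¬ ∃ x, a x = p) {x : V} (hx : LL E δ p a b x) :
    C1 E δ p a b x := by
  refine Cl.base hx ?_
  unfold Rg
  have h1 := h.2.2.1 x
  have h2 : a x ≠ p := fun h => hno ⟨x, h⟩
  have h3 := hx.2
  omega

theorem AA_sub (hpq : p < q) (h : TT E δ r s p q a b) {x : V} (hx : AA E δ q (q - p) a b x) :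
    WW E δ p a b x := by
  refine Cl.induct (Q := WW E δ p a b) ?_ ?_ hx
  · intro x hx _
    exact WW_base h (by omega)
  · intro x y _ hW hr ha
    refine hW.next ?_ ?_
    · unfold Rg at hr ⊢; omega
    · rcases ha with ⟨h1, h2⟩ | ⟨h1, h2⟩
      · exact Or.inl ⟨h1, by omega⟩
      · exact Or.inr ⟨h1, by omega⟩

theorem AA_base (hpq : p < q) (h : TT E δ r s p q a b) (hno : ¬ ∃ x, a x = p) {x : V} (hx : b x = q) :
    AA E δ q (q - p) a b x := by
  refine Cl.base hx ?_
  unfold Rg
  have h1 := h.2.2.1 x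
  have h2 : a x ≠ p := fun h => hno ⟨x, h⟩
  omega

theorem exists_LL (h : TT E δ r s p q a b) (hno : ¬ ∃ x, a x = p) : ∃ x, LL E δ p a b x := by
  rcases h.2.2.2.2.2.2 with ⟨x, _, hx⟩ | h
  · exact absurd ⟨x, hx⟩ hno
  · exact h

theorem AA_LL (hpq : p < q) (h : TT E δ r s p q a b) {x : V} (hx : LL E δ p a b x) :
    ¬ AA E δ q (q - p) a b x := fun hA => hx.1 (AA_sub hpq h hA)

/-- target of the second step -/
def Tgt (E : V → V → Prop) (δ : V → V → ℤ) (r q : ℤ) (f : V → ℤ) : Prop :=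
  Adm E δ f ∧ (∀ x, r ≤ f x ∧ f x ≤ q) ∧ ∃ x, f x = q

theorem case1_tgt (hrs : r ≤ s) (_hpq : p < q) (h : TT E δ r s p q a b) (hno : ¬ ∃ x, a x = p)
    (h1 : ∀ x, C1 E δ p a b x → s ≤ a x) :
    Tgt E δ r p (swV (C1 E δ p a b) 0 b a) ∧ Tgt E δ s q (swU (C1 E δ p a b) 0 b a) := by
  refine ⟨⟨adm_swV h.2.1 h.1 Cl.closed, ?_, ?_⟩, ⟨adm_swU h.2.1 h.1 Cl.closed, ?_, ?_⟩⟩
  · intro x
    have h2 := h.2.2.1 x
    have h3 := h.2.2.2.1 x
    unfold swV
    by_cases hx : C1 E δ p a b x
    · rw [if_pos hx]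
      have := b_le h (C1_out hx)
      omega
    · rw [if_neg hx]; exact h2
  · obtain ⟨x, hx⟩ := exists_LL h hno
    refine ⟨x, ?_⟩
    unfold swV
    rw [if_pos (C1_base h hno hx), hx.2]; ring
  · intro x
    have h2 := h.2.2.1 x
    have h3 := h.2.2.2.1 x
    unfold swU
    by_cases hx : C1 E δ p a b x
    · rw [if_pos hx]
      have := h1 x hx
      omega
    · rw [if_neg hx]; exact h3
  · obtain ⟨x, hx⟩ := h.2.2.2.2.1
    refine ⟨x, ?_⟩
    unfold swU
    rw [if_neg (fun hc => C1_out hc (WW_base h (by omega))), hx]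

theorem case3_tgt (_hrs : r ≤ s) (hpq : p < q) (hδ : ∀ x y, 0 ≤ δ x y) (h : TT E δ r s p q a b)
    (hno : ¬ ∃ x, a x = p) :
    Tgt E δ r p (swV (AA E δ q (q - p) a b) (q - p) b a) ∧
      Tgt E δ s q (raise q (LL E δ p a b) (swU (AA E δ q (q - p) a b) (q - p) b a)) := by
  have hadm2 : Adm E δ (swU (AA E δ q (q - p) a b) (q - p) b a) := adm_swU h.2.1 h.1 Cl.closed
  refine ⟨⟨adm_swV h.2.1 h.1 Cl.closed, ?_, ?_⟩, ⟨?_, ?_, ?_⟩⟩
  · intro x
    have h2 := h.2.2.1 x
    have h3 := h.2.2.2.1 x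
    unfold swV
    by_cases hx : AA E δ q (q - p) a b x
    · rw [if_pos hx]
      have := hx.rg
      unfold Rg at this
      omega
    · rw [if_neg hx]; exact h2
  · obtain ⟨x, hx⟩ := h.2.2.2.2.1
    refine ⟨x, ?_⟩
    unfold swV
    rw [if_pos (AA_base hpq h hno hx), hx]; ring
  · intro x y hxy
    have ha := h.1 x y hxy
    have hb := h.2.1 x y hxy
    have h2 := hadm2 x y hxy
    have hd := hδ x y
    unfold raise
    by_cases hx : LL E δ p a b x
    · rw [if_pos hx]
      by_cases hy : LL E δ p a b y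
      · rw [if_pos hy]
        have h3 := hx.2
        have h4 := hy.2
        omega
      · exfalso
        have h3 := hx.2
        have hWy : WW E δ p a b y := by
          by_contra hc
          have := b_le h hc
          exact hy ⟨hc, by omega⟩
        have h4 : a x ≠ p := fun h => hno ⟨x, h⟩
        have h5 := (h.2.2.1 x).2
        have h6 : a y ≠ p := fun h => hno ⟨y, h⟩
        have h7 := (h.2.2.1 y).2
        refine hx.1 (hWy.next ?_ (Or.inr ⟨hxy, ?_⟩))
        · unfold Rg; omega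
        · omega
    · rw [if_neg hx]
      by_cases hy : LL E δ p a b y
      · rw [if_pos hy]
        have h4 := hy.2
        unfold swU
        by_cases hA : AA E δ q (q - p) a b x
        · rw [if_pos hA]
          have := (h.2.2.1 y).2
          omega
        · rw [if_neg hA]; omega
      · rw [if_neg hy]; exact h2
  · intro x
    have h2 := h.2.2.1 x
    have h3 := h.2.2.2.1 x
    unfold raise
    by_cases hx : LL E δ p a b x
    · rw [if_pos hx]; omega
    · rw [if_neg hx]
      unfold swU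
      by_cases hA : AA E δ q (q - p) a b x
      · rw [if_pos hA]
        have := h.2.2.2.2.2.1 x (AA_sub hpq h hA)
        omega
      · rw [if_neg hA]; exact h3
  · obtain ⟨x, hx⟩ := exists_LL h hno
    exact ⟨x, by unfold raise; rw [if_pos hx]⟩

theorem Psi2_case0 (h : TT E δ r s p q a b) : Psi2 E δ s p q a b = (a, b) := by
  unfold Psi2
  rw [if_neg, if_pos h.2.2.2.2.2.2]
  rintro ⟨y, h1, h2⟩
  have := h.2.2.2.2.2.1 y h1
  omega

theorem Psi2_case1 (_hpq : p < q) (h : TT E δ r s p q a b) (hno : ¬ ∃ x, a x = p) :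
    Psi2 E δ s p q (swV (C1 E δ p a b) 0 b a) (swU (C1 E δ p a b) 0 b a) = (a, b) := by
  have hS : (fun x => p < swU (C1 E δ p a b) 0 b a x) = (fun x => p < b x) := by
    funext x
    apply propext
    unfold swU
    by_cases hx : C1 E δ p a b x
    · rw [if_pos hx]
      have h1 := b_le h (C1_out hx)
      have h2 := h.2.2.1 x
      constructor <;> intro h3 <;> omega
    · rw [if_neg hx]
  have hW : WW E δ p (swV (C1 E δ p a b) 0 b a) (swU (C1 E δ p a b) 0 b a) = WW E δ p a b := by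
    funext x
    apply propext
    unfold WW
    rw [hS]
    exact cl_swap_out Cl.closed (fun x hx hC => C1_out hC (WW_base h hx))
  have hC : Cl E δ (swV (C1 E δ p a b) 0 b a) (swU (C1 E δ p a b) 0 b a) 0
      (fun x => swV (C1 E δ p a b) 0 b a x = p) = C1 E δ p a b := by
    have hsub : ∀ x, swV (C1 E δ p a b) 0 b a x = p → C1 E δ p a b x := by
      intro x hx
      by_contra hc
      unfold swV at hx
      rw [if_neg hc] at hx
      exact hno ⟨x, hx⟩
    funext x
    apply propext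
    have h1 := cl_swap_in (S := fun x => swV (C1 E δ p a b) 0 b a x = p) (x := x) h.2.1 h.1
      (Cl.closed (E := E) (δ := δ) (u := b) (v := a) (c := 0) (S := LL E δ p a b)) hsub
    rw [neg_zero] at h1
    refine h1.trans (Cl.congr ?_)
    intro z _
    constructor
    · intro hz
      have h2 := hsub z hz
      unfold swV at hz
      rw [if_pos h2] at hz
      exact ⟨C1_out h2, by omega⟩
    · intro hz
      unfold swV
      rw [if_pos (C1_base h hno hz), hz.2]; ring
  unfold Psi2
  rw [hW, if_neg, if_neg, hC, sw_swU, sw_swV]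
  · rintro (⟨x, h1, h2⟩ | ⟨x, h1, h2⟩)
    · unfold swV at h2
      rw [if_neg (fun hc => C1_out hc h1)] at h2
      exact hno ⟨x, h2⟩
    · unfold swU at h2
      by_cases hx : C1 E δ p a b x
      · rw [if_pos hx] at h2
        exact hno ⟨x, by omega⟩
      · rw [if_neg hx] at h2
        exact hx (C1_base h hno ⟨h1, h2⟩)
  · rintro ⟨x, h1, h2⟩
    unfold swV at h2
    rw [if_neg (fun hc => C1_out hc h1)] at h2
    have := h.2.2.2.2.2.1 x h1
    omega

theorem Psi2_case3 (hpq : p < q) (h : TT E δ r s p q a b) (hno : ¬ ∃ x, a x = p)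
    (h1 : ¬ ∀ x, C1 E δ p a b x → s ≤ a x) :
    Psi2 E δ s p q (swV (AA E δ q (q - p) a b) (q - p) b a)
      (raise q (LL E δ p a b) (swU (AA E δ q (q - p) a b) (q - p) b a)) = (a, b) := by
  set A := AA E δ q (q - p) a b with hA
  set L := LL E δ p a b with hL
  set α := swV A (q - p) b a with hα
  set b2 := swU A (q - p) b a with hb2
  set β := raise q L b2 with hβ
  have hlow : lower p q β = b2 := by
    funext x
    have h2 := h.2.2.1 x
    have h3 : a x ≠ p := fun h => hno ⟨x, h⟩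
    unfold lower
    by_cases hx : L x
    · have e1 : β x = q := by rw [hβ]; unfold raise; rw [if_pos hx]
      have e2 : b2 x = p := by
        rw [hb2]; unfold swU; rw [if_neg (AA_LL hpq h hx)]; exact hx.2
      rw [if_pos e1, e2]
    · have e1 : β x = b2 x := by rw [hβ]; unfold raise; rw [if_neg hx]
      have e2 : b2 x ≠ q := by
        rw [hb2]; unfold swU
        by_cases hxA : A x
        · rw [if_pos hxA]; omega
        · rw [if_neg hxA]
          intro hc
          exact hxA (AA_base hpq h hno hc)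
      rw [e1, if_neg e2]
  have hcl : Cl E δ α b2 (-(q - p)) (fun x => α x = p) = A := by
    have hsub : ∀ x, α x = p → A x := by
      intro x hx
      by_contra hc
      rw [hα] at hx
      unfold swV at hx
      rw [if_neg hc] at hx
      exact hno ⟨x, hx⟩
    funext x
    apply propext
    have h2 := cl_swap_in (S := fun x => α x = p) (x := x) h.2.1 h.1
      (Cl.closed (E := E) (δ := δ) (u := b) (v := a) (c := q - p) (S := fun x => b x = q)) hsub
    refine h2.trans (Cl.congr ?_)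
    intro z _
    constructor
    · intro hz
      have h3 := hsub z hz
      have h4 : α z = b z - (q - p) := by rw [hα]; unfold swV; rw [if_pos h3]
      omega
    · intro hz
      have h3 : A z := AA_base hpq h hno hz
      have h4 : α z = b z - (q - p) := by rw [hα]; unfold swV; rw [if_pos h3]
      omega
  have hP : ∃ y, WW E δ p α β y ∧ α y < s := by
    push Not at h1
    obtain ⟨y, hy1, hy2⟩ := h1
    refine ⟨y, ?_, ?_⟩
    · have h2 := h
      have key : ∀ x, C1 E δ p a b x → α x = a x ∧ b x ≤ β x := by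
        intro x hx
        have h3 : ¬ A x := fun hc => C1_out hx (AA_sub hpq h hc)
        constructor
        · rw [hα]; unfold swV; rw [if_neg h3]
        · rw [hβ]; unfold raise
          by_cases hx' : L x
          · rw [if_pos hx']; exact (h.2.2.2.1 x).2
          · rw [if_neg hx', hb2]; unfold swU; rw [if_neg h3]
      refine Cl.induct (Q := WW E δ p α β) ?_ ?_ hy1
      · intro x hx hr
        have h3 : β x = q := by rw [hβ]; unfold raise; rw [if_pos hx]
        have h4 := key x (C1_base h hno hx)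
        have h5 := h.2.2.1 x
        refine Cl.base ?_ ?_
        · show p < β x
          omega
        · unfold Rg; omega
      · intro x z hx hW hr ha
        have h3 := key x hx
        have h4 := key z (hx.next hr ha)
        refine hW.next ?_ ?_
        · unfold Rg at hr ⊢; omega
        · rcases ha with ⟨e1, e2⟩ | ⟨e1, e2⟩
          · exact Or.inl ⟨e1, by omega⟩
          · exact Or.inr ⟨e1, by omega⟩
    · have h3 : ¬ A y := fun hc => C1_out hy1 (AA_sub hpq h hc)
      rw [hα]; unfold swV; rw [if_neg h3]; exact hy2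
  unfold Psi2
  rw [if_pos hP, hlow, hcl, hb2, hα, sw_swU, sw_swV]

theorem Phi2_tgt (hrs : r ≤ s) (hpq : p < q) (hδ : ∀ x y, 0 ≤ δ x y) (h : TT E δ r s p q a b) :
    Tgt E δ r p (Phi2 E δ s p q a b).1 ∧ Tgt E δ s q (Phi2 E δ s p q a b).2 := by
  unfold Phi2
  by_cases hno : ∃ x, a x = p
  · rw [if_pos hno]
    exact ⟨⟨h.1, h.2.2.1, hno⟩, ⟨h.2.1, h.2.2.2.1, h.2.2.2.2.1⟩⟩
  · rw [if_neg hno]
    by_cases h1 : ∀ x, C1 E δ p a b x → s ≤ a x
    · rw [if_pos h1]
      exact case1_tgt hrs hpq h hno h1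
    · rw [if_neg h1]
      exact case3_tgt hrs hpq hδ h hno

theorem Psi2_Phi2 (hpq : p < q) (h : TT E δ r s p q a b) :
    Psi2 E δ s p q (Phi2 E δ s p q a b).1 (Phi2 E δ s p q a b).2 = (a, b) := by
  unfold Phi2
  by_cases hno : ∃ x, a x = p
  · rw [if_pos hno]
    exact Psi2_case0 h
  · rw [if_neg hno]
    by_cases h1 : ∀ x, C1 E δ p a b x → s ≤ a x
    · rw [if_pos h1]
      exact Psi2_case1 hpq h hno
    · rw [if_neg h1]
      exact Psi2_case3 hpq h hno h1

end second

/-- the admissible maps with values in `[r, q]` and maximum `q` -/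
noncomputable def FF [Fintype V] (E : V → V → Prop) (δ : V → V → ℤ) (r q : ℤ) : Finset (V → ℤ) :=
  (Fintype.piFinset (fun _ => Finset.Icc r q)).filter (fun f => Adm E δ f ∧ ∃ x, f x = q)

theorem mem_FF [Fintype V] {r q : ℤ} {f : V → ℤ} : f ∈ FF E δ r q ↔ Tgt E δ r q f := by
  unfold FF Tgt
  rw [Finset.mem_filter, Fintype.mem_piFinset]
  constructor
  · rintro ⟨h1, h2, h3⟩
    exact ⟨h2, fun x => Finset.mem_Icc.1 (h1 x), h3⟩
  · rintro ⟨h1, h2, h3⟩
    exact ⟨fun x => Finset.mem_Icc.2 (h2 x), h1, h3⟩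

/-- The main inequality. -/
theorem main [Fintype V] {r s p q : ℤ} (hrs : r ≤ s) (hpq : p ≤ q) (hδ : ∀ x y, 0 ≤ δ x y) :
    (FF E δ r q).card * (FF E δ s p).card ≤ (FF E δ r p).card * (FF E δ s q).card := by
  rcases hpq.eq_or_lt with rfl | hpq
  · exact le_refl _
  rw [← Finset.card_product, ← Finset.card_product]
  refine Finset.card_le_card_of_injOn
    (fun fg => Phi2 E δ s p q (Phi1 E δ p fg.1 fg.2).1 (Phi1 E δ p fg.1 fg.2).2) ?_ ?_
  · rintro ⟨f, g⟩ hfg
    rw [Finset.mem_coe, Finset.mem_product] at hfg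
    have h1 := mem_FF.1 hfg.1
    have h2 := mem_FF.1 hfg.2
    have h3 := Phi2_tgt hrs hpq hδ (TT_Phi1 hrs hpq h1.1 h2.1 h1.2.1 h1.2.2 h2.2.1 h2.2.2)
    rw [Finset.mem_coe, Finset.mem_product]
    exact ⟨mem_FF.2 h3.1, mem_FF.2 h3.2⟩
  · have key : ∀ fg ∈ (FF E δ r q ×ˢ FF E δ s p : Finset ((V → ℤ) × (V → ℤ))),
        (fun ab : (V → ℤ) × (V → ℤ) => Psi1 E δ p (Psi2 E δ s p q ab.1 ab.2).1
          (Psi2 E δ s p q ab.1 ab.2).2)
          (Phi2 E δ s p q (Phi1 E δ p fg.1 fg.2).1 (Phi1 E δ p fg.1 fg.2).2) = fg := by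
      rintro ⟨f, g⟩ hfg
      rw [Finset.mem_product] at hfg
      have h1 := mem_FF.1 hfg.1
      have h2 := mem_FF.1 hfg.2
      have hT := TT_Phi1 hrs hpq h1.1 h2.1 h1.2.1 h1.2.2 h2.2.1 h2.2.2
      simp only
      rw [Psi2_Phi2 hpq hT]
      exact Psi1_Phi1 h1.1 h2.1 (fun x => (h2.2.1 x).2)
    intro x hx y hy hxy
    rw [← key x hx, ← key y hy]
    exact congrArg (fun ab : (V → ℤ) × (V → ℤ) => Psi1 E δ p (Psi2 E δ s p q ab.1 ab.2).1
      (Psi2 E δ s p q ab.1 ab.2).2) hxy

end Pool.Agent.Helper14.J1
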