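import Pool.Agent.Helper14.J1.Cnt
import Pool.Agent.Helper14.J1.Inj

/-!
# `(P, ω)`-partitions with largest part `m`
-/

set_option autoImplicit false
open Classical

namespace Pool.Agent.Helper14.J1

/-- `(P, ω)`-partitions (order preserving version) -/
def PP {n : ℕ} (le : Fin n → Fin n → Prop) (f : Fin n → ℕ) : Prop :=
  ∀ x y, le x y → x ≠ y → f x ≤ f y ∧ (y < x → f x < f y)

/-- linear extensions -/
def IsLE {n : ℕ} (le : Fin n → Fin n → Prop) (σ : Equiv.Perm (Fin n)) : Prop :=
  ∀ i j : Fin n, le (σ i) (σ j) → σ i ≠ σ j → i < j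

/-- number of descents -/
noncomputable def desN {n : ℕ} (σ : Equiv.Perm (Fin n)) : ℕ :=
  ((Finset.univ : Finset (Fin n × Fin n)).filter
    (fun p => p.2.val = p.1.val + 1 ∧ σ p.2 < σ p.1)).card

/-- the `(P, ω)`-partitions with largest part `m` -/
noncomputable def DS {n : ℕ} (le : Fin n → Fin n → Prop) (m : ℕ) : Finset (Fin n → ℕ) :=
  (Fintype.piFinset (fun _ : Fin n => Finset.range (m + 1))).filter
    (fun f => PP le f ∧ ∃ x, f x = m)

theorem mem_DS {n : ℕ} {le : Fin n → Fin n → Prop} {m : ℕ} {f : Fin n → ℕ} :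
    f ∈ DS le m ↔ (∀ x, f x ≤ m) ∧ PP le f ∧ ∃ x, f x = m := by
  unfold DS
  rw [Finset.mem_filter, Fintype.mem_piFinset]
  constructor
  · rintro ⟨h1, h2⟩
    exact ⟨fun x => by have := Finset.mem_range.1 (h1 x); omega, h2⟩
  · rintro ⟨h1, h2⟩
    exact ⟨fun x => Finset.mem_range.2 (by have := h1 x; omega), h2⟩

theorem desN_eq {N : ℕ} (σ : Equiv.Perm (Fin (N + 1))) :
    desN σ = (Finset.univ.filter (fun j : Fin N => σ j.succ < σ j.castSucc)).card := by
  unfold desN
  refine (Finset.card_bij (fun (j : Fin N) _ => (j.castSucc, j.succ)) ?_ ?_ ?_).symm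
  · intro j hj
    rw [Finset.mem_filter] at hj ⊢
    exact ⟨Finset.mem_univ _, by simp, hj.2⟩
  · intro a _ b _ h
    exact Fin.castSucc_injective _ (Prod.ext_iff.1 h).1
  · rintro ⟨a, b⟩ h
    rw [Finset.mem_filter] at h
    obtain ⟨_, h1, h2⟩ := h
    have h3 : a.val < N := by
      have := b.2
      simp only at h1
      omega
    refine ⟨⟨a.val, h3⟩, ?_, ?_⟩
    · rw [Finset.mem_filter]
      refine ⟨Finset.mem_univ _, ?_⟩
      have e1 : (⟨a.val, h3⟩ : Fin N).castSucc = a := Fin.ext rfl
      have e2 : (⟨a.val, h3⟩ : Fin N).succ = b := Fin.ext (by simp only [Fin.val_succ]; exact h1.symm)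
      rw [e1, e2]
      exact h2
    · apply Prod.ext
      · exact Fin.ext rfl
      · exact Fin.ext (by simp only [Fin.val_succ]; exact h1.symm)

theorem PP.isLE {n : ℕ} {le : Fin n → Fin n → Prop} {f : Fin n → ℕ} (h : PP le f) :
    IsLE le (Tuple.sort f) := by
  intro i j hle hne
  by_contra hij
  have hij' : j < i := by
    rcases lt_trichotomy i j with h1 | h1 | h1
    · exact absurd h1 hij
    · exact absurd (by rw [h1]) hne
    · exact h1
  have h1 := (Tuple.eq_sort_iff.1 (rfl : Tuple.sort f = Tuple.sort f))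
  have h2 := h1.1 hij'.le
  have h3 := h _ _ hle hne
  simp only [Function.comp] at h2
  have h4 := h1.2 j i hij' (le_antisymm h2 h3.1)
  have h5 := h3.2 h4
  omega

theorem sorted_run {N : ℕ} {σ : Equiv.Perm (Fin (N + 1))} {m : ℕ} {g : Fin (N + 1) → ℕ}
    (h : IsG N (fun j => σ j.succ < σ j.castSucc) m g) :
    ∀ (d : ℕ) (i j : Fin (N + 1)), j.val = i.val + d + 1 → g i = g j → σ i < σ j := by
  intro d
  induction d with
  | zero =>
    intro i j hij hg
    have hi : i.val < N := by have := j.2; omega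
    have e1 : (⟨i.val, hi⟩ : Fin N).castSucc = i := Fin.ext rfl
    have e2 : (⟨i.val, hi⟩ : Fin N).succ = j := Fin.ext (by simp only [Fin.val_succ]; omega)
    have h1 := h.1 ⟨i.val, hi⟩
    rw [e1, e2] at h1
    rcases lt_trichotomy (σ i) (σ j) with h2 | h2 | h2
    · exact h2
    · have := σ.injective h2
      rw [this] at hij
      omega
    · have h3 : (fun j : Fin N => σ j.succ < σ j.castSucc) ⟨i.val, hi⟩ := by
        show σ (⟨i.val, hi⟩ : Fin N).succ < σ (⟨i.val, hi⟩ : Fin N).castSucc
        rw [e1, e2]; exact h2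
      have := h1.2 h3
      omega
  | succ d ih =>
    intro i j hij hg
    have hj := j.2
    let k : Fin (N + 1) := ⟨i.val + d + 1, by omega⟩
    have h1 : g i ≤ g k := h.mono (Fin.le_def.2 (by show i.val ≤ i.val + d + 1; omega))
    have h2 : g k ≤ g j := h.mono (Fin.le_def.2 (by show i.val + d + 1 ≤ j.val; omega))
    have h3 := ih i k rfl (by omega)
    have hk : k.val < N := by show i.val + d + 1 < N; omega
    have e1 : (⟨k.val, hk⟩ : Fin N).castSucc = k := Fin.ext rfl
    have e2 : (⟨k.val, hk⟩ : Fin N).succ = j :=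
      Fin.ext (by simp only [Fin.val_succ]; show i.val + d + 1 + 1 = j.val; omega)
    have h4 := h.1 ⟨k.val, hk⟩
    rw [e1, e2] at h4
    refine h3.trans ?_
    rcases lt_trichotomy (σ k) (σ j) with h5 | h5 | h5
    · exact h5
    · have h6 := σ.injective h5
      have h7 : k.val = j.val := by rw [h6]
      have h8 : k.val = i.val + d + 1 := rfl
      omega
    · have h6 : (fun j : Fin N => σ j.succ < σ j.castSucc) ⟨k.val, hk⟩ := by
        show σ (⟨k.val, hk⟩ : Fin N).succ < σ (⟨k.val, hk⟩ : Fin N).castSucc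
        rw [e1, e2]; exact h5
      have := h4.2 h6
      omega

theorem fiber_card {N : ℕ} {le : Fin (N + 1) → Fin (N + 1) → Prop} (m : ℕ)
    {σ : Equiv.Perm (Fin (N + 1))} (hσ : IsLE le σ) :
    ((DS le m).filter (fun f => Tuple.sort f = σ)).card = (m + N - desN σ).choose N := by
  rw [desN_eq]
  have hG : (m + N - (Finset.univ.filter (fun j : Fin N => σ j.succ < σ j.castSucc)).card).choose N =
      (GG N (fun j => σ j.succ < σ j.castSucc) m).card := by
    rw [card_GG N (fun j => σ j.succ < σ j.castSucc) m]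
    have e : (Finset.univ.filter (fun j : Fin N => σ j.succ < σ j.castSucc)).card =
        (@Finset.filter _ (fun j : Fin N => σ j.succ < σ j.castSucc)
          (fun j => Classical.propDecidable _) Finset.univ).card := by
      congr 1
      ext j
      simp only [Finset.mem_filter]
    rw [e]
  rw [hG]
  refine Finset.card_bij' (fun f _ => f ∘ σ) (fun g _ => g ∘ σ.symm) ?_ ?_ ?_ ?_
  · intro f hf
    rw [Finset.mem_filter, mem_DS] at hf
    obtain ⟨⟨h1, h2, x, hx⟩, h3⟩ := hf
    have h4 := Tuple.eq_sort_iff.1 h3.symm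
    rw [mem_GG]
    refine ⟨fun j => ⟨h4.1 (Fin.castSucc_lt_succ).le, fun hs => ?_⟩, ?_⟩
    · have h5 := h4.1 (Fin.castSucc_lt_succ (i := j)).le
      rcases h5.lt_or_eq with h6 | h6
      · exact h6
      · exact absurd (h4.2 _ _ (Fin.castSucc_lt_succ) h6) (not_lt.2 hs.le)
    · apply le_antisymm (h1 _)
      have h5 : f (σ (σ.symm x)) ≤ f (σ (Fin.last N)) := h4.1 (Fin.le_last _)
      rw [σ.apply_symm_apply, hx] at h5
      exact h5
  · intro g hg
    rw [mem_GG] at hg
    rw [Finset.mem_filter, mem_DS]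
    have hsort : σ = Tuple.sort (g ∘ σ.symm) := by
      rw [Tuple.eq_sort_iff]
      have e : (g ∘ σ.symm) ∘ σ = g := by
        funext i
        simp only [Function.comp, Equiv.symm_apply_apply]
      rw [e]
      refine ⟨hg.mono, fun i j hij hgij => ?_⟩
      simp only [Function.comp, Equiv.symm_apply_apply] at hgij
      exact sorted_run hg (j.val - i.val - 1) i j (by have := Fin.lt_def.1 hij; omega) hgij
    refine ⟨⟨fun x => hg.le _, ?_, σ (Fin.last N), ?_⟩, hsort.symm⟩
    · intro x y hxy hne
      have h1 : σ.symm x < σ.symm y := hσ _ _ (by rwa [σ.apply_symm_apply, σ.apply_symm_apply])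
        (by rwa [σ.apply_symm_apply, σ.apply_symm_apply])
      have h2 := hg.mono h1.le
      refine ⟨h2, fun hyx => ?_⟩
      rcases h2.lt_or_eq with h3 | h3
      · exact h3
      · have h4 := sorted_run hg ((σ.symm y).val - (σ.symm x).val - 1) _ _
          (by have := Fin.lt_def.1 h1; omega) h3
        rw [σ.apply_symm_apply, σ.apply_symm_apply] at h4
        exact absurd h4 (not_lt.2 hyx.le)
    · simp only [Function.comp, Equiv.symm_apply_apply]
      exact hg.2
  · intro f _
    funext x
    simp only [Function.comp, Equiv.apply_symm_apply]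
  · intro g _
    funext x
    simp only [Function.comp, Equiv.symm_apply_apply]

/-- Stanley's formula. -/
theorem card_DS {N : ℕ} (le : Fin (N + 1) → Fin (N + 1) → Prop) (m : ℕ) :
    (DS le m).card = ∑ σ ∈ Finset.univ.filter (IsLE le), (m + N - desN σ).choose N := by
  rw [Finset.card_eq_sum_card_fiberwise (f := fun f => Tuple.sort f) (t := Finset.univ.filter (IsLE le))]
  · refine Finset.sum_congr rfl fun σ hσ => ?_
    exact fiber_card m (Finset.mem_filter.1 hσ).2
  · intro f hf
    rw [Finset.mem_coe, mem_DS] at hf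
    rw [Finset.mem_coe, Finset.mem_filter]
    exact ⟨Finset.mem_univ _, hf.2.1.isLE⟩

theorem desN_lt {N : ℕ} (σ : Equiv.Perm (Fin (N + 1))) : desN σ < N + 1 := by
  rw [desN_eq]
  have : (Finset.univ.filter (fun j : Fin N => σ j.succ < σ j.castSucc)).card ≤ N := by
    refine (Finset.card_filter_le _ _).trans ?_
    rw [Finset.card_univ, Fintype.card_fin]
  omega

/-- grouped by the number of descents -/
theorem card_DS' {N : ℕ} (le : Fin (N + 1) → Fin (N + 1) → Prop) (m : ℕ) :
    (DS le m).card = ∑ k ∈ Finset.range (N + 1),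
      (Finset.univ.filter (fun σ : Equiv.Perm (Fin (N + 1)) => IsLE le σ ∧ desN σ + 1 = k + 1)).card *
        (m + N - k).choose N := by
  rw [card_DS, ← Finset.sum_fiberwise_of_maps_to (g := fun σ => desN σ) (t := Finset.range (N + 1))
    (fun σ _ => Finset.mem_range.2 (desN_lt σ))]
  refine Finset.sum_congr rfl fun k _ => ?_
  rw [Finset.filter_filter, Finset.sum_congr rfl (g := fun _ => (m + N - k).choose N), Finset.sum_const,
    smul_eq_mul]
  · congr 2
    ext σ
    simp only [Finset.mem_filter, Nat.add_right_cancel_iff]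
  · intro σ hσ
    rw [(Finset.mem_filter.1 hσ).2.2]

/-! ## log-concavity -/

/-- strictness -/
def dl {n : ℕ} (x y : Fin n) : ℤ := if y < x then 1 else 0

theorem card_shift {n : ℕ} (le : Fin n → Fin n → Prop) (m : ℕ) (r q : ℤ) (h : q - r = m) :
    (DS le m).card = (FF (fun x y => le x y ∧ x ≠ y) dl r q).card := by
  refine Finset.card_bij' (fun f _ x => (f x : ℤ) + r) (fun f _ x => (f x - r).toNat) ?_ ?_ ?_ ?_
  · intro f hf
    rw [mem_DS] at hf
    rw [mem_FF]
    obtain ⟨h1, h2, x, hx⟩ := hf
    refine ⟨?_, fun x => ⟨by show r ≤ (f x : ℤ) + r; omega, by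
      have := h1 x
      show (f x : ℤ) + r ≤ q
      omega⟩, x, by show (f x : ℤ) + r = q; omega⟩
    rintro x y ⟨hxy, hne⟩
    have h3 := h2 x y hxy hne
    show (f x : ℤ) + r + dl x y ≤ (f y : ℤ) + r
    unfold dl
    split_ifs with h4
    · have := h3.2 h4
      omega
    · omega
  · intro f hf
    rw [mem_FF] at hf
    rw [mem_DS]
    obtain ⟨h1, h2, x, hx⟩ := hf
    refine ⟨fun x => by have := h2 x; show (f x - r).toNat ≤ m; omega, ?_, x,
      by show (f x - r).toNat = m; omega⟩
    intro x y hxy hne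
    have h3 := h1 x y ⟨hxy, hne⟩
    have h4 := h2 x
    have h5 := h2 y
    show (f x - r).toNat ≤ (f y - r).toNat ∧ (y < x → (f x - r).toNat < (f y - r).toNat)
    unfold dl at h3
    constructor
    · split_ifs at h3 <;> omega
    · intro hyx
      rw [if_pos hyx] at h3
      omega
  · intro f _
    funext x
    simp only
    omega
  · intro f hf
    rw [mem_FF] at hf
    funext x
    have := hf.2.1 x
    simp only
    omega

/-- The number of `(P, ω)`-partitions with largest part `m` is a log-concave function of `m`. -/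
theorem logConc_DS {n : ℕ} (le : Fin n → Fin n → Prop) (m c d : ℕ) :
    (DS le m).card * (DS le (m + c + d)).card ≤ (DS le (m + c)).card * (DS le (m + d)).card := by
  rw [card_shift le (m + c + d) 0 (m + c + d) (by push_cast; ring),
    card_shift le m c (m + c) (by ring), card_shift le (m + c) 0 (m + c) (by push_cast; ring),
    card_shift le (m + d) c (m + c + d) (by push_cast; ring), Nat.mul_comm]
  refine main (by omega) (by omega) (fun x y => ?_)
  unfold dl
  split_ifs <;> norm_num

end Pool.Agent.Helper14.J1
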